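import Pool.Agent.Helper47.SR.Goals

namespace Pool.Agent.Helper60.SR

open Finset Pool.Agent.Helper47.SR

theorem goal_STEP (hCT : Goal_CT) : Goal_STEP := by
  classical
  intro P _ n L cov m hdisj hmn hcard hcard' hcond hP
  obtain ⟨C, hC, hcov⟩ := hP
  -- levels are determined
  have hlev : ∀ {x : P} {i j : ℕ}, x ∈ L i → x ∈ L j → i = j := by
    intro x i j hi hj
    by_contra hne
    exact (Finset.disjoint_left.mp (hdisj i j hne)) hi hj
  -- entries of old lists
  have hent : ∀ l ∈ C, ∀ x ∈ l, ∃ k, m + 1 ≤ k ∧ k + (m + 1) ≤ n ∧ x ∈ L k := by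
    intro l hl x hx
    obtain ⟨i, hi1, hi2, hlen, hent, -⟩ := hC l hl
    obtain ⟨j, hj, hjx⟩ := List.getElem_of_mem hx
    have h1 : l[j]? = some x := by rw [List.getElem?_eq_getElem hj, hjx]
    exact ⟨i + j, by omega, by omega, hent j x h1⟩
  -- lists through a point of level m+1
  have hhead : ∀ l ∈ C, ∀ x ∈ l, x ∈ L (m + 1) →
      l.length = n - 2 * (m + 1) + 1 ∧ l[0]? = some x ∧
      (∀ (j : ℕ) (y : P), l[j]? = some y → y ∈ L (m + 1 + j)) ∧
      (∀ (j : ℕ) (x y : P), l[j]? = some x → l[j+1]? = some y → cov x y) := by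
    intro l hl x hx hxL
    obtain ⟨i, hi1, hi2, hlen, hent, hc⟩ := hC l hl
    obtain ⟨j, hj, hjx⟩ := List.getElem_of_mem hx
    have h1 : l[j]? = some x := by rw [List.getElem?_eq_getElem hj, hjx]
    have h2 := hlev (hent j x h1) hxL
    have hi : i = m + 1 := by omega
    have hj0 : j = 0 := by omega
    subst hi; subst hj0
    exact ⟨hlen, h1, hent, hc⟩
  have hex : ∀ x ∈ L (m + 1), ∃ l, l ∈ C ∧ x ∈ l := by
    intro x hx
    obtain ⟨l, hl, -⟩ := hcov (m + 1) le_rfl (by omega) x hx
    exact ⟨l, hl⟩
  have hex' : ∀ x : P, ∃ l : List P, x ∈ L (m + 1) → l ∈ C ∧ x ∈ l := by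
    intro x
    by_cases hx : x ∈ L (m + 1)
    · obtain ⟨l, hl⟩ := hex x hx
      exact ⟨l, fun _ => hl⟩
    · exact ⟨[], fun h => absurd h hx⟩
  choose ell hell using hex'
  have huniq : ∀ x j, m + 1 ≤ j → j + (m + 1) ≤ n → x ∈ L j → ∀ l ∈ C, ∀ l' ∈ C, x ∈ l → x ∈ l' → l = l' := by
    intro x j h1 h2 hx l hl l' hl' hxl hxl'
    obtain ⟨l0, -, h0⟩ := hcov j h1 h2 x hx
    rw [h0 l ⟨hl, hxl⟩, h0 l' ⟨hl', hxl'⟩]
  -- the last entry
  have hlast : ∀ x : P, ∃ y : P, x ∈ L (m + 1) → (ell x)[n - 2 * (m + 1)]? = some y := by
    intro x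
    by_cases hx : x ∈ L (m + 1)
    · obtain ⟨h1, h2, -, -⟩ := hhead (ell x) (hell x hx).1 x (hell x hx).2 hx
      have hlt : n - 2 * (m + 1) < (ell x).length := by omega
      exact ⟨(ell x)[n - 2 * (m + 1)], fun _ => List.getElem?_eq_getElem hlt⟩
    · exact ⟨x, fun h => absurd h hx⟩
  choose phi hphi using hlast
  have hphiL : ∀ x ∈ L (m + 1), phi x ∈ L (n - m - 1) := by
    intro x hx
    obtain ⟨h1, h2, h3, -⟩ := hhead (ell x) (hell x hx).1 x (hell x hx).2 hx
    have := h3 _ _ (hphi x hx)
    have e : m + 1 + (n - 2 * (m + 1)) = n - m - 1 := by omega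
    rwa [e] at this
  have hphimem : ∀ x ∈ L (m + 1), phi x ∈ ell x := by
    intro x hx
    exact List.mem_of_getElem? (hphi x hx)
  have hellinj : ∀ x ∈ L (m + 1), ∀ y ∈ L (m + 1), ell x = ell y → x = y := by
    intro x hx y hy h
    have h1 := (hhead (ell x) (hell x hx).1 x (hell x hx).2 hx).2.1
    have h2 := (hhead (ell y) (hell y hy).1 y (hell y hy).2 hy).2.1
    rw [h, h2] at h1
    exact (Option.some.inj h1).symm
  have hphiinj : ∀ x ∈ L (m + 1), ∀ y ∈ L (m + 1), phi x = phi y → x = y := by
    intro x hx y hy h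
    apply hellinj x hx y hy
    refine huniq (phi x) (n - m - 1) (by omega) (by omega) (hphiL x hx) _ (hell x hx).1 _ (hell y hy).1
      (hphimem x hx) ?_
    rw [h]; exact hphimem y hy
  have hphiimg : (L (m + 1)).image phi = L (n - m - 1) := by
    apply Finset.eq_of_subset_of_card_le
    · intro y hy
      obtain ⟨x, hx, rfl⟩ := Finset.mem_image.mp hy
      exact hphiL x hx
    · rw [Finset.card_image_of_injOn (fun x hx y hy h => hphiinj x hx y hy h), hcard']
  -- the transversal
  have hIJ : Fintype.card {x // x ∈ L m} = Fintype.card {x // x ∈ L (n - m)} := by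
    rw [Fintype.card_coe, Fintype.card_coe, hcard]
  obtain ⟨a, e, hainj, hae⟩ := hCT (E := P) (I := {x // x ∈ L m}) (J := {x // x ∈ L (n - m)})
    (fun s => (L (m + 1)).filter (fun x => cov s.1 x))
    (fun t => (L (m + 1)).filter (fun x => cov (phi x) t.1)) hIJ (by
      intro S T
      by_cases hST : #S + #T ≤ Fintype.card {x // x ∈ L m}
      · exact hST.trans (Nat.le_add_left _ _)
      · have hS : (S.map (Function.Embedding.subtype _)) ⊆ L m := by
          intro x hx
          obtain ⟨y, -, rfl⟩ := Finset.mem_map.mp hx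
          exact y.2
        have hT : (T.map (Function.Embedding.subtype _)) ⊆ L (n - m) := by
          intro x hx
          obtain ⟨y, -, rfl⟩ := Finset.mem_map.mp hx
          exact y.2
        have h := hcond _ hS _ hT (by
          rw [Finset.card_map, Finset.card_map]
          rw [Fintype.card_coe] at hST
          omega)
        rw [Finset.card_map, Finset.card_map] at h
        have e1 : (L (m + 1)).filter (fun x => ∃ s ∈ S.map (Function.Embedding.subtype _), cov s x) =
            S.biUnion (fun s => (L (m + 1)).filter (fun x => cov s.1 x)) := by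
          ext x
          simp only [Finset.mem_filter, Finset.mem_biUnion, Finset.mem_map,
            Function.Embedding.subtype_apply]
          constructor
          · rintro ⟨hx, s, ⟨s', hs', rfl⟩, hc⟩
            exact ⟨s', hs', hx, hc⟩
          · rintro ⟨s', hs', hx, hc⟩
            exact ⟨hx, s'.1, ⟨s', hs', rfl⟩, hc⟩
        have e2 : #((L (n - m - 1)).filter
              (fun x => ∃ t ∈ T.map (Function.Embedding.subtype _), cov x t)) =
            #(T.biUnion (fun t => (L (m + 1)).filter (fun x => cov (phi x) t.1))) := by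
          rw [← hphiimg, Finset.filter_image, Finset.card_image_of_injOn]
          · congr 1
            ext x
            simp only [Finset.mem_filter, Finset.mem_biUnion, Finset.mem_map,
              Function.Embedding.subtype_apply]
            constructor
            · rintro ⟨hx, s, ⟨s', hs', rfl⟩, hc⟩
              exact ⟨s', hs', hx, hc⟩
            · rintro ⟨s', hs', hx, hc⟩
              exact ⟨hx, s'.1, ⟨s', hs', rfl⟩, hc⟩
          · intro x hx y hy hxy
            exact hphiinj x (Finset.mem_filter.mp (Finset.mem_coe.mp hx)).1 y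
              (Finset.mem_filter.mp (Finset.mem_coe.mp hy)).1 hxy
        rw [e1, e2] at h
        have h3 := Finset.card_union_add_card_inter
          (S.biUnion (fun s => (L (m + 1)).filter (fun x => cov s.1 x)))
          (T.biUnion (fun t => (L (m + 1)).filter (fun x => cov (phi x) t.1)))
        have h4 : #((S.biUnion (fun s => (L (m + 1)).filter (fun x => cov s.1 x))) ∪
          (T.biUnion (fun t => (L (m + 1)).filter (fun x => cov (phi x) t.1)))) ≤ #(L (m + 1)) := by
          apply Finset.card_le_card
          apply Finset.union_subset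
          · exact Finset.biUnion_subset.mpr (fun s _ => Finset.filter_subset _ _)
          · exact Finset.biUnion_subset.mpr (fun s _ => Finset.filter_subset _ _)
        rw [Fintype.card_coe]
        omega)
  have haM : ∀ s, a s ∈ L (m + 1) := fun s => (Finset.mem_filter.mp (hae s).1).1
  have hac : ∀ s, cov s.1 (a s) := fun s => (Finset.mem_filter.mp (hae s).1).2
  have haphi : ∀ s, cov (phi (a s)) (e s).1 := fun s => (Finset.mem_filter.mp (hae s).2).2
  -- new lists
  set nl : {x // x ∈ L m} → List P := fun s => s.1 :: (ell (a s) ++ [(e s).1]) with hnl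
  set C' : Finset (List P) := C.filter (fun l => ∀ s, l ≠ ell (a s)) ∪ univ.image nl with hC'
  have hmemC' : ∀ l, l ∈ C' ↔ (l ∈ C ∧ ∀ s, l ≠ ell (a s)) ∨ ∃ s, nl s = l := by
    intro l
    rw [hC', Finset.mem_union, Finset.mem_filter, Finset.mem_image]
    simp
  have hmemnl : ∀ s x, x ∈ nl s ↔ x = s.1 ∨ x ∈ ell (a s) ∨ x = (e s).1 := by
    intro s x
    simp [hnl]
  refine ⟨C', ?_, ?_⟩
  · intro l hl
    rcases (hmemC' l).mp hl with ⟨hl, -⟩ | ⟨s, rfl⟩
    · obtain ⟨i, h1, h2, h3⟩ := hC l hl
      exact ⟨i, by omega, h2, h3⟩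
    · obtain ⟨hlen, hh, hlv, hcv⟩ := hhead (ell (a s)) (hell _ (haM s)).1 (a s) (hell _ (haM s)).2 (haM s)
      refine ⟨m, le_rfl, by omega, ?_, ?_, ?_⟩
      · simp only [hnl, List.length_cons, List.length_append, List.length_nil]
        omega
      · intro j x hx
        cases j with
        | zero =>
          simp only [hnl, List.getElem?_cons_zero, Option.some.injEq] at hx
          rw [← hx]; exact s.2
        | succ j =>
          simp only [hnl, List.getElem?_cons_succ] at hx
          by_cases hj : j < (ell (a s)).length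
          · rw [List.getElem?_append_left hj] at hx
            have := hlv j x hx
            have e1 : m + (j + 1) = m + 1 + j := by omega
            rw [e1]; exact this
          · rw [List.getElem?_append_right (by omega)] at hx
            have hj2 : j - (ell (a s)).length = 0 := by
              by_contra hne
              obtain ⟨k, hk⟩ := Nat.exists_eq_succ_of_ne_zero hne
              rw [hk] at hx
              simp at hx
            rw [hj2] at hx
            simp only [List.getElem?_cons_zero, Option.some.injEq] at hx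
            rw [← hx]
            have e1 : m + (j + 1) = n - m := by omega
            rw [e1]; exact (e s).2
      · intro j x y hx hy
        cases j with
        | zero =>
          simp only [hnl, List.getElem?_cons_zero, Option.some.injEq] at hx
          simp only [hnl, List.getElem?_cons_succ] at hy
          rw [List.getElem?_append_left (by omega), hh, Option.some.injEq] at hy
          rw [← hx, ← hy]; exact hac s
        | succ j =>
          simp only [hnl, List.getElem?_cons_succ] at hx hy
          by_cases hj : j + 1 < (ell (a s)).length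
          · rw [List.getElem?_append_left hj] at hy
            rw [List.getElem?_append_left (by omega)] at hx
            exact hcv j x y hx hy
          · rw [List.getElem?_append_right (by omega)] at hy
            have hj2 : j + 1 - (ell (a s)).length = 0 := by
              by_contra hne
              obtain ⟨k, hk⟩ := Nat.exists_eq_succ_of_ne_zero hne
              rw [hk] at hy
              simp at hy
            rw [hj2] at hy
            simp only [List.getElem?_cons_zero, Option.some.injEq] at hy
            have hj3 : j = n - 2 * (m + 1) := by omega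
            rw [List.getElem?_append_left (by omega), hj3, hphi (a s) (haM s), Option.some.injEq] at hx
            rw [← hx, ← hy]; exact haphi s
  · intro j hj1 hj2 x hx
    -- membership analysis
    by_cases hjm : j = m
    · subst hjm
      refine ⟨nl ⟨x, hx⟩, ⟨(hmemC' _).mpr (Or.inr ⟨_, rfl⟩), (hmemnl _ _).mpr (Or.inl rfl)⟩, ?_⟩
      rintro l ⟨hl, hxl⟩
      rcases (hmemC' l).mp hl with ⟨hl, -⟩ | ⟨s, rfl⟩
      · obtain ⟨k, h1, h2, h3⟩ := hent l hl x hxl
        have := hlev h3 hx
        omega
      · rcases (hmemnl _ _).mp hxl with h | h | h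
        · congr 1
          exact Subtype.ext h.symm
        · obtain ⟨k, h1, h2, h3⟩ := hent _ (hell _ (haM s)).1 x h
          have := hlev h3 hx
          omega
        · have h3 : x ∈ L (n - j) := by rw [h]; exact (e s).2
          have := hlev h3 hx
          omega
    by_cases hjn : j = n - m
    · subst hjn
      set s : {x // x ∈ L m} := e.symm ⟨x, hx⟩ with hs
      have hes : (e s).1 = x := by rw [hs, Equiv.apply_symm_apply]
      refine ⟨nl s, ⟨(hmemC' _).mpr (Or.inr ⟨_, rfl⟩), (hmemnl _ _).mpr (Or.inr (Or.inr hes.symm))⟩, ?_⟩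
      rintro l ⟨hl, hxl⟩
      rcases (hmemC' l).mp hl with ⟨hl, -⟩ | ⟨s', rfl⟩
      · obtain ⟨k, h1, h2, h3⟩ := hent l hl x hxl
        have := hlev h3 hx
        omega
      · rcases (hmemnl _ _).mp hxl with h | h | h
        · have h3 : x ∈ L m := by rw [h]; exact s'.2
          have := hlev h3 hx
          omega
        · obtain ⟨k, h1, h2, h3⟩ := hent _ (hell _ (haM s')).1 x h
          have := hlev h3 hx
          omega
        · congr 1
          apply e.injective
          apply Subtype.ext
          rw [← h, hes]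
    -- the middle
    have hj3 : m + 1 ≤ j := by omega
    have hj4 : j + (m + 1) ≤ n := by omega
    have hxs : ∀ s : {x // x ∈ L m}, x ≠ s.1 := by
      intro s h
      have h3 : x ∈ L m := by rw [h]; exact s.2
      exact hjm (hlev hx h3)
    have hxe : ∀ s : {x // x ∈ L m}, x ≠ (e s).1 := by
      intro s h
      have h3 : x ∈ L (n - m) := by rw [h]; exact (e s).2
      exact hjn (hlev hx h3)
    obtain ⟨l0, ⟨hl0, hxl0⟩, hu⟩ := hcov j hj3 hj4 x hx
    by_cases hrep : ∃ s, l0 = ell (a s)
    · obtain ⟨s, hs⟩ := hrep
      refine ⟨nl s, ⟨(hmemC' _).mpr (Or.inr ⟨_, rfl⟩),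
        (hmemnl _ _).mpr (Or.inr (Or.inl (by rw [← hs]; exact hxl0)))⟩, ?_⟩
      rintro l ⟨hl, hxl⟩
      rcases (hmemC' l).mp hl with ⟨hl, hl'⟩ | ⟨s', rfl⟩
      · exact absurd ((hu l ⟨hl, hxl⟩).trans hs) (hl' s)
      · rcases (hmemnl _ _).mp hxl with h | h | h
        · exact absurd h (hxs s')
        · have h1 := hu _ ⟨(hell _ (haM s')).1, h⟩
          have h2 : a s' = a s := hellinj _ (haM s') _ (haM s) (h1.trans hs)
          rw [hainj h2]
        · exact absurd h (hxe s')
    · push Not at hrep
      refine ⟨l0, ⟨(hmemC' _).mpr (Or.inl ⟨hl0, hrep⟩), hxl0⟩, ?_⟩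
      rintro l ⟨hl, hxl⟩
      rcases (hmemC' l).mp hl with ⟨hl, hl'⟩ | ⟨s', rfl⟩
      · exact hu l ⟨hl, hxl⟩
      · rcases (hmemnl _ _).mp hxl with h | h | h
        · exact absurd h (hxs s')
        · exact absurd (hu _ ⟨(hell _ (haM s')).1, h⟩).symm (hrep s')
        · exact absurd h (hxe s')

end Pool.Agent.Helper60.SR
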