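import Pool.Agent.Helper75.SR.Goals1

/-!
# The derivative of a field in the moving frame (packet SR-GDer)
-/

namespace Pool.Agent.Helper60.SR

open scoped ContDiff Topology
open Pool.Agent.Helper75.SR

set_option synthInstance.maxSize 1000

variable {E : Type} [NormedAddCommGroup E] [NormedSpace ℝ E] {U : Set E}

theorem xi_hasFDerivAt (S : LocSas E U) {x : E} (hx : x ∈ U) (a : Fin 3) :
    HasFDerivAt (S.xi a) (fderiv ℝ (S.xi a) x) x :=
  (((S.xi_smooth a).contDiffAt (S.isOpen.mem_nhds hx)).differentiableAt (by simp)).hasFDerivAt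

theorem phi_contDiffOn (S : LocSas E U) (a : Fin 3) :
    ContDiffOn ℝ ∞ (phiOf S.Gam (S.xi a)) U := by
  have h1 : ContDiffOn ℝ ∞ (fderiv ℝ (S.xi a)) U :=
    (S.xi_smooth a).fderiv_of_isOpen S.isOpen (by simp)
  have h2 : ContDiffOn ℝ ∞ (fun x => (S.Gam x).flip) U :=
    (ContinuousLinearMap.flipₗᵢ ℝ E E E).toContinuousLinearEquiv.toContinuousLinearMap.contDiff.comp_contDiffOn
      S.Gam_smooth
  have h3 : ContDiffOn ℝ ∞ (fun x => (S.Gam x).flip (S.xi a x)) U :=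
    h2.clm_apply (S.xi_smooth a)
  exact (h1.add h3).neg

theorem phi_hasFDerivAt (S : LocSas E U) {x : E} (hx : x ∈ U) (a : Fin 3) :
    HasFDerivAt (phiOf S.Gam (S.xi a)) (fderiv ℝ (phiOf S.Gam (S.xi a)) x) x :=
  (((phi_contDiffOn S a).contDiffAt (S.isOpen.mem_nhds hx)).differentiableAt
    (by simp)).hasFDerivAt


/-- covariant derivative of `φ_a e` along a curve -/
theorem D_phi (S : LocSas E U) {x : E} (hx : x ∈ U) (a : Fin 3) (T e e' : E)
    (he : S.g x (S.xi a x) e = 0) :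
    fderiv ℝ (phiOf S.Gam (S.xi a)) x T e + S.phi a x e' + S.Gam x T (S.phi a x e)
      = S.g x T e • S.xi a x + S.phi a x (e' + S.Gam x T e) := by
  have h := S.sasaki x hx a T e
  rw [he, zero_smul, sub_zero] at h
  unfold LocSas.phi
  rw [map_add, ← h]
  abel

/-- covariant derivative of `ξ_a` along a curve -/
theorem D_xi (S : LocSas E U) (x : E) (a : Fin 3) (T : E) :
    fderiv ℝ (S.xi a) x T + S.Gam x T (S.xi a x) = - S.phi a x T := by
  unfold LocSas.phi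
  rw [phiOf_apply, neg_neg]

theorem gDer (hA : GAlg) : GDer := by
  intro E _ _ U S κ τ w t γ e p f g e' p' f' g' hx heta hee hγ he hp hf hg hD
  have hphi : ∀ a, HasDerivAt (fun s => S.phi a (γ s) (e s))
      (fderiv ℝ (phiOf S.Gam (S.xi a)) (γ t) (τ • e t + w • S.xi 0 (γ t)) (e t)
        + S.phi a (γ t) e') t := by
    intro a
    have h1 := (phi_hasFDerivAt S hx a).comp_hasDerivAt t hγ
    exact h1.clm_apply he
  have hxi : ∀ a, HasDerivAt (fun s => S.xi a (γ s))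
      (fderiv ℝ (S.xi a) (γ t) (τ • e t + w • S.xi 0 (γ t))) t := by
    intro a
    exact (xi_hasFDerivAt S hx a).comp_hasDerivAt t hγ
  refine ⟨_, ((hp.smul he).add (HasDerivAt.fun_sum (u := Finset.univ)
    (fun a _ => (hf a).smul (hphi a)))).add (HasDerivAt.fun_sum (u := Finset.univ)
    (fun a _ => (hg a).smul (hxi a))), ?_⟩
  have hgT : S.g (γ t) (τ • e t + w • S.xi 0 (γ t)) (e t) = τ := by
    rw [map_add, add_apply, map_smul, map_smul,
      smul_apply, smul_apply, hee, heta 0]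
    simp
  have hDp : ∀ a, fderiv ℝ (phiOf S.Gam (S.xi a)) (γ t) (τ • e t + w • S.xi 0 (γ t)) (e t)
      + S.phi a (γ t) e' + S.Gam (γ t) (τ • e t + w • S.xi 0 (γ t)) (S.phi a (γ t) (e t))
      = τ • S.xi a (γ t) + κ • S.phi a (γ t) (S.phi 0 (γ t) (e t)) := by
    intro a
    rw [D_phi S hx a _ _ _ (heta a), hgT]
    have : e' + S.Gam (γ t) (τ • e t + w • S.xi 0 (γ t)) (e t) = κ • S.phi 0 (γ t) (e t) := hD
    rw [this, map_smul]
  have hDx : ∀ a, fderiv ℝ (S.xi a) (γ t) (τ • e t + w • S.xi 0 (γ t))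
      + S.Gam (γ t) (τ • e t + w • S.xi 0 (γ t)) (S.xi a (γ t))
      = - (τ • S.phi a (γ t) (e t) + w • S.phi a (γ t) (S.xi 0 (γ t))) := by
    intro a
    rw [D_xi, map_add, map_smul, map_smul]
  have hA0 := hA E U S (γ t) hx 0 (e t)
  have hA1 := hA E U S (γ t) hx 1 (e t)
  have hA2 := hA E U S (γ t) hx 2 (e t)
  have e20 : (2 : Fin 3) + 1 = 0 := by decide
  have e21 : (2 : Fin 3) + 2 = 1 := by decide
  have e11 : (1 : Fin 3) + 1 = 2 := by decide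
  have e12 : (1 : Fin 3) + 2 = 0 := by decide
  have e01 : (0 : Fin 3) + 1 = 1 := by decide
  have e02 : (0 : Fin 3) + 2 = 2 := by decide
  rw [e01, e02] at hA0
  rw [e11, e12] at hA1
  rw [e20, e21] at hA2
  obtain ⟨a1, a2, a3, a4, a5, a6⟩ := hA0
  obtain ⟨b1, b2, b3, b4, b5, b6⟩ := hA1
  obtain ⟨c1, c2, c3, c4, c5, c6⟩ := hA2
  have hp0 := hDp 0
  have hp1 := hDp 1
  have hp2 := hDp 2
  have hx0 := hDx 0
  have hx1 := hDx 1
  have hx2 := hDx 2
  rw [a4, heta 0, zero_smul, add_zero] at hp0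
  rw [b6, heta 0, zero_smul, add_zero] at hp1
  rw [c5, heta 0, zero_smul, add_zero] at hp2
  rw [a1] at hx0
  rw [b3] at hx1
  rw [c2] at hx2
  have hee' : e' + S.Gam (γ t) (τ • e t + w • S.xi 0 (γ t)) (e t)
    = κ • S.phi 0 (γ t) (e t) := hD
  have key : ∀ (G : E →L[ℝ] E) (A0 A1 A2 X0 X1 X2 : E),
      e' + G (e t) = κ • S.phi 0 (γ t) (e t) →
      A0 + G (S.phi 0 (γ t) (e t)) = τ • S.xi 0 (γ t) + κ • -e t →
      A1 + G (S.phi 1 (γ t) (e t)) = τ • S.xi 1 (γ t) + κ • -S.phi 2 (γ t) (e t) →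
      A2 + G (S.phi 2 (γ t) (e t)) = τ • S.xi 2 (γ t) + κ • S.phi 1 (γ t) (e t) →
      X0 + G (S.xi 0 (γ t)) = -(τ • S.phi 0 (γ t) (e t) + w • (0 : E)) →
      X1 + G (S.xi 1 (γ t)) = -(τ • S.phi 1 (γ t) (e t) + w • -S.xi 2 (γ t)) →
      X2 + G (S.xi 2 (γ t)) = -(τ • S.phi 2 (γ t) (e t) + w • S.xi 1 (γ t)) →
      (p t • e' + p' • e t + ((f 0 t • A0 + f' 0 • S.phi 0 (γ t) (e t))
        + (f 1 t • A1 + f' 1 • S.phi 1 (γ t) (e t))
        + (f 2 t • A2 + f' 2 • S.phi 2 (γ t) (e t)))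
        + ((g 0 t • X0 + g' 0 • S.xi 0 (γ t)) + (g 1 t • X1 + g' 1 • S.xi 1 (γ t))
        + (g 2 t • X2 + g' 2 • S.xi 2 (γ t))))
      + G (p t • e t + (f 0 t • S.phi 0 (γ t) (e t) + f 1 t • S.phi 1 (γ t) (e t)
        + f 2 t • S.phi 2 (γ t) (e t))
        + (g 0 t • S.xi 0 (γ t) + g 1 t • S.xi 1 (γ t) + g 2 t • S.xi 2 (γ t))) =
      (p' - κ * f 0 t) • e t
      + (f' 0 + κ * p t - τ * g 0 t) • S.phi 0 (γ t) (e t)
      + (f' 1 + κ * f 2 t - τ * g 1 t) • S.phi 1 (γ t) (e t)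
      + (f' 2 - κ * f 1 t - τ * g 2 t) • S.phi 2 (γ t) (e t)
      + (g' 0 + τ * f 0 t) • S.xi 0 (γ t)
      + (g' 1 + τ * f 1 t - w * g 2 t) • S.xi 1 (γ t)
      + (g' 2 + τ * f 2 t + w * g 1 t) • S.xi 2 (γ t) := by
    intro G A0 A1 A2 X0 X1 X2 h h0 h1 h2 h3 h4 h5
    rw [eq_sub_of_add_eq h, eq_sub_of_add_eq h0, eq_sub_of_add_eq h1, eq_sub_of_add_eq h2,
      eq_sub_of_add_eq h3, eq_sub_of_add_eq h4, eq_sub_of_add_eq h5]
    simp only [map_add, map_smul]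
    module
  unfold LocSas.D
  rw [Fin.sum_univ_three, Fin.sum_univ_three, Fin.sum_univ_three, Fin.sum_univ_three]
  exact key _ _ _ _ _ _ _ hee' hp0 hp1 hp2 hx0 hx1 hx2

end Pool.Agent.Helper60.SR
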