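import Pool.Agent.Helper7.SR.Goals

set_option autoImplicit false

namespace Pool.Agent.Helper60.SR

open Finset Pool.Agent.Helper7.SR

open scoped Classical in
theorem indep_of_dens {α : Type*} {M : Matroid α} {R : Finset α} {k : ℕ} (h : Dens M R k) {x : α}
    (hx : x ∈ R) : M.Indep {x} := by
  have hxE : x ∈ M.E := h.1 (by simpa using hx)
  by_contra hne
  rw [Matroid.singleton_not_indep hxE, Matroid.isLoop_iff] at hne
  have h1 := h.2 ∅ (by simp) (by simp)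
  simp only [Finset.coe_empty, Finset.card_empty, mul_zero, Nat.le_zero,
    Finset.card_eq_zero] at h1
  have h2 : x ∈ R.filter (fun x => x ∈ M.closure ((∅ : Set α))) := by
    rw [Finset.mem_filter]
    exact ⟨hx, hne⟩
  rw [h1] at h2
  simp at h2

theorem cover_singletons {α : Type*} {M N : Matroid α} {R : Finset α} {k : ℕ} (hM : Dens M R k)
    (hN : Dens N R k) : Cover M N R R.card := by
  classical
  refine ⟨fun i => {((R.equivFin.symm i : R) : α)}, fun i => ⟨?_, ?_⟩, fun i j hij => ?_, ?_⟩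
  · simpa using indep_of_dens hM (R.equivFin.symm i).2
  · simpa using indep_of_dens hN (R.equivFin.symm i).2
  · rw [Finset.disjoint_singleton]
    intro h
    apply hij
    exact R.equivFin.symm.injective (Subtype.ext h)
  · ext x
    simp only [Finset.mem_biUnion, Finset.mem_univ, true_and, Finset.mem_singleton]
    constructor
    · intro hx
      exact ⟨R.equivFin ⟨x, hx⟩, by simp⟩
    · rintro ⟨i, rfl⟩
      exact (R.equivFin.symm i).2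

theorem s_fin.{u} (h : Pool.Agent.Helper7.SR.S_MAIN.{u}) : Pool.Agent.Helper7.SR.S_FIN.{u} := by
  obtain ⟨C, hC, H⟩ := h
  refine ⟨12 + 49 * 8788 * C, by positivity, fun α M N R k hk hR hM hN => ?_⟩
  obtain ⟨n, hn⟩ : ∃ n : ℝ, n = (R.card : ℝ) := ⟨_, rfl⟩
  have hn2 : (2 : ℝ) ≤ n := by
    rw [hn]
    exact_mod_cast hR
  obtain ⟨l, hl⟩ : ∃ l : ℝ, l = Real.log n := ⟨_, rfl⟩
  have hl0 : 0 < l := by
    rw [hl]
    exact Real.log_pos (by linarith)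
  have hk1 : (1 : ℝ) ≤ k := by exact_mod_cast hk
  rw [← hn, ← hl]
  have hnn : 0 ≤ (12 + 49 * 8788 * C) * ((k : ℝ) ^ (3 / 4 : ℝ) * l ^ (1 / 2 : ℝ) + l ^ 2) := by
    positivity
  rcases le_or_gt (R.card) k with hle | hlt
  · refine ⟨R.card, ?_, cover_singletons hM hN⟩
    have : (R.card : ℝ) ≤ k := by exact_mod_cast hle
    linarith
  -- the choice of `s`
  obtain ⟨x, hx⟩ : ∃ x : ℝ, x = (k : ℝ) ^ (1 / 4 : ℝ) * l ^ (-(1 / 2) : ℝ) := ⟨_, rfl⟩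
  have hx0 : 0 < x := by
    rw [hx]
    positivity
  obtain ⟨m, hm, hcov⟩ := H α M N R k (⌈x⌉₊ + 12) hk (by omega) hM hN
  refine ⟨m, hm.trans ?_, hcov⟩
  have hsx : x ≤ ((⌈x⌉₊ + 12 : ℕ) : ℝ) := by
    push_cast
    linarith [Nat.le_ceil x]
  have hsx2 : ((⌈x⌉₊ + 12 : ℕ) : ℝ) ≤ x + 13 := by
    push_cast
    linarith [Nat.ceil_lt_add_one hx0.le]
  obtain ⟨s, hs⟩ : ∃ s : ℝ, s = ((⌈x⌉₊ + 12 : ℕ) : ℝ) := ⟨_, rfl⟩
  rw [← hs] at hsx hsx2 ⊢
  have hs0 : 0 < s := hx0.trans_le hsx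
  -- `12 k / s`
  have e1 : 12 * (k : ℝ) / s ≤ 12 * ((k : ℝ) ^ (3 / 4 : ℝ) * l ^ (1 / 2 : ℝ)) := by
    rw [div_le_iff₀ hs0]
    have e2 : (k : ℝ) = (k : ℝ) ^ (3 / 4 : ℝ) * l ^ (1 / 2 : ℝ) * x := by
      rw [hx]
      have e3 : (k : ℝ) ^ (3 / 4 : ℝ) * l ^ (1 / 2 : ℝ) * ((k : ℝ) ^ (1 / 4 : ℝ) *
          l ^ (-(1 / 2) : ℝ)) = ((k : ℝ) ^ (3 / 4 : ℝ) * (k : ℝ) ^ (1 / 4 : ℝ)) *
            (l ^ (1 / 2 : ℝ) * l ^ (-(1 / 2) : ℝ)) := by ring
      rw [e3, ← Real.rpow_add (by linarith), ← Real.rpow_add hl0]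
      norm_num
    have e4 : 0 ≤ (k : ℝ) ^ (3 / 4 : ℝ) * l ^ (1 / 2 : ℝ) := by positivity
    calc 12 * (k : ℝ) = 12 * ((k : ℝ) ^ (3 / 4 : ℝ) * l ^ (1 / 2 : ℝ) * x) := by rw [← e2]
      _ ≤ 12 * ((k : ℝ) ^ (3 / 4 : ℝ) * l ^ (1 / 2 : ℝ)) * s := by nlinarith
  -- the logarithm
  have e5 : Real.log (16 * ((R.card : ℝ) + 1) * k) ≤ 7 * l := by
    have e6 : (k : ℝ) ≤ n := by
      rw [hn]
      exact_mod_cast hlt.le
    have e7 : 16 * ((R.card : ℝ) + 1) * k ≤ n ^ 7 := by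
      rw [← hn]
      have e8 : (32 : ℝ) ≤ n ^ 5 := by
        calc (32 : ℝ) = 2 ^ 5 := by norm_num
          _ ≤ n ^ 5 := pow_le_pow_left₀ (by norm_num) hn2 5
      calc 16 * (n + 1) * k ≤ 16 * (n + 1) * n := by
            have : 0 ≤ 16 * (n + 1) := by linarith
            exact mul_le_mul_of_nonneg_left e6 this
        _ ≤ 32 * n ^ 2 := by nlinarith
        _ ≤ n ^ 5 * n ^ 2 := mul_le_mul_of_nonneg_right e8 (by positivity)
        _ = n ^ 7 := by ring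
    calc Real.log (16 * ((R.card : ℝ) + 1) * k) ≤ Real.log (n ^ 7) :=
          Real.log_le_log (by positivity) e7
      _ = 7 * l := by
          rw [Real.log_pow, hl]
          norm_num
  have e6 : 0 ≤ Real.log (16 * ((R.card : ℝ) + 1) * k) := by
    apply Real.log_nonneg
    rw [← hn]
    nlinarith
  have e7 : (Real.log (16 * ((R.card : ℝ) + 1) * k)) ^ 2 ≤ 49 * l ^ 2 := by
    calc _ ≤ (7 * l) ^ 2 := pow_le_pow_left₀ e6 e5 2
      _ = 49 * l ^ 2 := by ring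
  have e8 : s ^ 3 ≤ 4 * x ^ 3 + 8788 := by
    have : s ^ 3 ≤ (x + 13) ^ 3 := pow_le_pow_left₀ hs0.le hsx2 3
    nlinarith [mul_nonneg hx0.le hx0.le, sq_nonneg (x - 13), mul_nonneg (sq_nonneg (x - 13)) hx0.le,
      mul_nonneg (sq_nonneg (x - 13)) (by linarith : 0 ≤ x + 13)]
  have e9 : x ^ 3 * l ^ 2 = (k : ℝ) ^ (3 / 4 : ℝ) * l ^ (1 / 2 : ℝ) := by
    rw [hx, mul_pow, ← Real.rpow_natCast ((k : ℝ) ^ (1 / 4 : ℝ)), ← Real.rpow_natCast (l ^ _),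
      ← Real.rpow_mul (by linarith), ← Real.rpow_mul hl0.le, ← Real.rpow_natCast l, mul_assoc,
      ← Real.rpow_add hl0]
    norm_num
  have e10 : C * s ^ 3 * (Real.log (16 * ((R.card : ℝ) + 1) * k)) ^ 2 ≤
      C * (4 * x ^ 3 + 8788) * (49 * l ^ 2) := by
    have : 0 ≤ C * s ^ 3 := by positivity
    refine mul_le_mul (mul_le_mul_of_nonneg_left e8 hC.le) e7 (by positivity) (by positivity)
  have e11 : C * (4 * x ^ 3 + 8788) * (49 * l ^ 2) =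
      C * 49 * 4 * (x ^ 3 * l ^ 2) + 49 * 8788 * C * l ^ 2 := by ring
  rw [e11, e9] at e10
  have e12 : 0 ≤ (k : ℝ) ^ (3 / 4 : ℝ) * l ^ (1 / 2 : ℝ) := by positivity
  have e13 : 0 ≤ l ^ 2 := by positivity
  have e14 : 0 ≤ C * ((k : ℝ) ^ (3 / 4 : ℝ) * l ^ (1 / 2 : ℝ)) := by positivity
  nlinarith

end Pool.Agent.Helper60.SR
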